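import Pool.Agent.W973.IP.Defs

set_option autoImplicit false

namespace Pool.Agent.W806.IP

open Pool.Agent.W973.IP MvPolynomial Filter Topology

lemma kap_inj (D : ℕ) : ∀ (n : ℕ) (a b : Fin n → ℕ), (∀ j, a j ≤ D) → (∀ j, b j ≤ D) →
    ∑ j, a j * (D + 1) ^ (j : ℕ) = ∑ j, b j * (D + 1) ^ (j : ℕ) → a = b := by
  intro n
  induction n with
  | zero => intro a b _ _ _; exact Subsingleton.elim _ _
  | succ n ih =>
    intro a b ha hb h
    rw [Fin.sum_univ_succ, Fin.sum_univ_succ] at h
    have e1 : ∀ c : Fin (n + 1) → ℕ, ∑ i : Fin n, c i.succ * (D + 1) ^ ((i.succ : Fin (n + 1)) : ℕ)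
        = (D + 1) * ∑ i : Fin n, c i.succ * (D + 1) ^ (i : ℕ) := by
      intro c
      rw [Finset.mul_sum]
      refine Finset.sum_congr rfl fun i _ => ?_
      rw [Fin.val_succ, pow_succ]; ring
    rw [e1, e1] at h
    simp only [Fin.val_zero, pow_zero, mul_one] at h
    have h0 : a 0 = b 0 := by
      have := congrArg (· % (D + 1)) h
      simp only [Nat.add_mul_mod_self_left] at this
      rwa [Nat.mod_eq_of_lt (Nat.lt_succ_of_le (ha 0)),
        Nat.mod_eq_of_lt (Nat.lt_succ_of_le (hb 0))] at this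
    rw [h0] at h
    have h1 := Nat.eq_of_mul_eq_mul_left (Nat.succ_pos D) (Nat.add_left_cancel h)
    have h2 := ih (fun i => a i.succ) (fun i => b i.succ) (fun j => ha _) (fun j => hb _) h1
    funext i
    refine Fin.cases h0 (fun j => congrFun h2 j) i

/-- weight of an exponent -/
def kap {n : ℕ} (D : ℕ) (s : Fin n ⊕ Fin 2 →₀ ℕ) : ℕ := ∑ j : Fin n, s (Sum.inl j) * (D + 1) ^ (j : ℕ)

/-- second part of an exponent -/
noncomputable def snd {n : ℕ} (s : Fin n ⊕ Fin 2 →₀ ℕ) : Fin 2 →₀ ℕ :=
  Finsupp.equivFunOnFinite.symm fun i => s (Sum.inr i)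

theorem loj2 : S_LOJ2 := by
  classical
  intro n D R hR hdeg
  have hle : ∀ s ∈ R.support, ∀ x, s x ≤ D := fun s hs x =>
    (MvPolynomial.monomial_le_degreeOf x hs).trans (hdeg x)
  obtain ⟨s0, hs0, hmin⟩ := Finset.exists_min_image R.support (kap D)
    (MvPolynomial.support_nonempty.2 hR)
  let Q : MvPolynomial (Fin 2) ℝ :=
    ∑ s ∈ R.support.filter (fun s => kap D s = kap D s0), monomial (snd s) (R.coeff s)
  have hQ0 : Q.coeff (snd s0) = R.coeff s0 := by
    simp only [Q, MvPolynomial.coeff_sum, MvPolynomial.coeff_monomial]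
    rw [Finset.sum_eq_single s0]
    · simp
    · intro s hs hne
      rw [if_neg]
      intro h
      apply hne
      rw [Finset.mem_filter] at hs
      have h1 : (fun j : Fin n => s (Sum.inl j)) = fun j => s0 (Sum.inl j) :=
        kap_inj D n _ _ (fun j => hle s hs.1 _) (fun j => hle s0 hs0 _) hs.2
      ext x
      rcases x with j | i
      · exact congrFun h1 j
      · have := DFunLike.congr_fun h i
        simpa [snd] using this
    · intro h
      exact (h (by rw [Finset.mem_filter]; exact ⟨hs0, rfl⟩)).elim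
  refine ⟨Q, ?_, ?_, ?_⟩
  · intro h
    rw [h, MvPolynomial.coeff_zero] at hQ0
    exact (MvPolynomial.mem_support_iff.1 hs0) hQ0.symm
  · refine (MvPolynomial.degreeOf_le_iff (d := D)).2 ?_
    intro m hm
    rw [MvPolynomial.mem_support_iff] at hm
    simp only [Q, MvPolynomial.coeff_sum, MvPolynomial.coeff_monomial] at hm
    obtain ⟨s, hs, hne⟩ := Finset.exists_ne_zero_of_sum_ne_zero hm
    by_cases hsm : snd s = m
    · rw [← hsm]
      simpa [snd] using hle s (Finset.mem_filter.1 hs).1 (Sum.inr 0)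
    · rw [if_neg hsm] at hne
      exact absurd rfl hne
  · intro ρ μ hz hμ
    let b : ℝ → Vec n := fun ε j => ε ^ ((D + 1) ^ (j : ℕ))
    have hb0 : b 0 = 0 := by
      funext j
      simp [b]
    have hbc : Continuous b := by
      refine continuous_pi fun j => ?_
      exact continuous_pow _
    let g : ℝ → ℝ := fun ε => ∑ s ∈ R.support,
      R.coeff s * ε ^ (kap D s - kap D s0) * (ρ ^ s (Sum.inr 0) * μ (b ε) ^ s (Sum.inr 1))
    have hgc : ContinuousAt g 0 := by
      have hμb : ContinuousAt (fun ε => μ (b ε)) 0 := by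
        apply ContinuousAt.comp (f := b) (g := μ)
        · rw [hb0]; exact hμ
        · exact hbc.continuousAt
      refine tendsto_finsetSum _ fun s _ => ?_
      refine Tendsto.mul (Tendsto.mul tendsto_const_nhds ?_) (Tendsto.mul tendsto_const_nhds ?_)
      · exact (continuous_pow _).continuousAt
      · exact hμb.pow _
    have hexp : ∀ (y : Vec n) (z0 z1 : ℝ), aeval (Sum.elim y ![z0, z1]) R =
        ∑ s ∈ R.support, R.coeff s * ((∏ j, y j ^ s (Sum.inl j)) *
          (z0 ^ s (Sum.inr 0) * z1 ^ s (Sum.inr 1))) := by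
      intro y z0 z1
      rw [MvPolynomial.aeval_def, MvPolynomial.eval₂_eq']
      refine Finset.sum_congr rfl fun s _ => ?_
      rw [Fintype.prod_sum_type]
      simp [Fin.prod_univ_two]
    have hg0 : ∀ ε : ℝ, ε ≠ 0 → g ε = 0 := by
      intro ε hε
      have h1 := hz (b ε)
      rw [hexp] at h1
      have h2 : ε ^ kap D s0 * g ε = 0 := by
        rw [← h1]
        simp only [g]
        rw [Finset.mul_sum]
        refine Finset.sum_congr rfl fun s hs => ?_
        have h3 : ∏ j, b ε j ^ s (Sum.inl j) = ε ^ kap D s := by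
          simp only [b, kap]
          rw [← Finset.prod_pow_eq_pow_sum]
          refine Finset.prod_congr rfl fun j _ => ?_
          rw [← pow_mul, mul_comm]
        rw [h3]
        have h4 : ε ^ kap D s = ε ^ kap D s0 * ε ^ (kap D s - kap D s0) := by
          rw [← pow_add, Nat.add_sub_cancel' (hmin s hs)]
        rw [h4]; ring
      rcases mul_eq_zero.1 h2 with h | h
      · exact absurd h (pow_ne_zero _ hε)
      · exact h
    have hg00 : g 0 = 0 := by
      have t1 : Tendsto g (𝓝[≠] 0) (𝓝 (g 0)) := hgc.tendsto.mono_left nhdsWithin_le_nhds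
      have t2 : Tendsto g (𝓝[≠] 0) (𝓝 0) := by
        refine Tendsto.congr' ?_ tendsto_const_nhds
        filter_upwards [self_mem_nhdsWithin] with ε hε
        exact (hg0 ε hε).symm
      exact tendsto_nhds_unique t1 t2
    rw [← hg00]
    simp only [g, Q, map_sum]
    rw [Finset.sum_filter]
    refine Finset.sum_congr rfl fun s hs => ?_
    rw [hb0]
    split_ifs with h
    · rw [h, Nat.sub_self, pow_zero, mul_one, MvPolynomial.aeval_monomial]
      rw [Finsupp.prod_fintype _ _ (fun i => pow_zero _)]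
      simp [snd, Fin.prod_univ_two]
    · have : kap D s - kap D s0 ≠ 0 := by
        have := hmin s hs
        omega
      rw [zero_pow this]; ring

end Pool.Agent.W806.IP
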